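import Mathlib
import Pool.Agent.N173.BG.Stm

/-!
Project BG (helper173), part PIG: a sumset of the near-maximal spectrum which is almost invariant
(helper507).
-/

set_option autoImplicit false

namespace Pool.Agent.N507.BG

open Finset Pool.Agent.TH858 Pool.Agent.TH858.GP Pool.Agent.N173.BG

variable {N : ℕ} [NeZero N]

lemma Sp_mono (X : Finset (ZMod N)) {θ θ' : ℝ} (h : θ ≤ θ') : Sp X θ ⊆ Sp X θ' := by
  intro g hg
  unfold Sp at hg ⊢
  rw [mem_filter] at hg ⊢
  refine ⟨hg.1, le_trans ?_ hg.2⟩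
  exact mul_le_mul_of_nonneg_right (by linarith) (sq_nonneg _)

lemma zero_mem_Sp (X : Finset (ZMod N)) {θ : ℝ} (h : 0 < θ) : (0 : ZMod N) ∈ Sp X θ := by
  unfold Sp
  rw [mem_filter]
  refine ⟨mem_univ _, ?_⟩
  have h1 : wt X 0 = (X.card : ℝ) ^ 2 := by
    unfold wt
    simp only [zero_mul, ψ_zero, sum_const, nsmul_eq_mul, mul_one, Complex.norm_natCast]
  rw [h1]
  have := sq_nonneg (X.card : ℝ)
  nlinarith

open scoped Classical in
/-- the sums of `i` elements of `G` -/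
noncomputable def SS (G : Finset (ZMod N)) (i : ℕ) : Finset (ZMod N) :=
  univ.filter fun q => ∃ f : Fin i → ZMod N, (∀ a, f a ∈ G) ∧ ∑ a, f a = q

lemma mem_SS {G : Finset (ZMod N)} {i : ℕ} {q : ZMod N} :
    q ∈ SS G i ↔ ∃ f : Fin i → ZMod N, (∀ a, f a ∈ G) ∧ ∑ a, f a = q := by
  unfold SS
  rw [mem_filter]
  simp

lemma SS_add {G : Finset (ZMod N)} {i : ℕ} {q g : ZMod N} (hq : q ∈ SS G i) (hg : g ∈ G) :
    q + g ∈ SS G (i + 1) := by
  rw [mem_SS] at hq ⊢
  obtain ⟨f, hf, rfl⟩ := hq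
  refine ⟨Fin.snoc f g, ?_, ?_⟩
  · intro a
    refine Fin.lastCases ?_ (fun a => ?_) a
    · rw [Fin.snoc_last]
      exact hg
    · rw [Fin.snoc_castSucc]
      exact hf a
  · rw [Fin.sum_univ_castSucc, Fin.snoc_last]
    congr 1
    exact sum_congr rfl fun a _ => by rw [Fin.snoc_castSucc]

lemma SS_sub {G : Finset (ZMod N)} (h0 : (0 : ZMod N) ∈ G) (i : ℕ) : SS G i ⊆ SS G (i + 1) := by
  intro q hq
  have := SS_add hq h0
  rwa [add_zero] at this

lemma zero_mem_SS {G : Finset (ZMod N)} (h0 : (0 : ZMod N) ∈ G) (i : ℕ) :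
    (0 : ZMod N) ∈ SS G i := by
  rw [mem_SS]
  exact ⟨fun _ => 0, fun _ => h0, by simp⟩

/-- sums of sums -/
lemma SS_SS {G : Finset (ZMod N)} {i m : ℕ} (f : Fin m → ZMod N) (hf : ∀ a, f a ∈ SS G i) :
    ∃ F : Fin (m * i) → ZMod N, (∀ a, F a ∈ G) ∧ ∑ a, F a = ∑ a, f a := by
  have h1 : ∀ a, ∃ F : Fin i → ZMod N, (∀ b, F b ∈ G) ∧ ∑ b, F b = f a :=
    fun a => mem_SS.1 (hf a)
  choose F hF1 hF2 using h1
  refine ⟨fun c => F (finProdFinEquiv.symm c).1 (finProdFinEquiv.symm c).2,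
    fun c => hF1 _ _, ?_⟩
  rw [finProdFinEquiv.symm.sum_comp (fun p : Fin m × Fin i => F p.1 p.2), Fintype.sum_prod_type]
  exact sum_congr rfl fun a _ => hF2 a

lemma cnt_eq (Q : Finset (ZMod N)) (x : ZMod N) :
    cnt Q x = (Q.filter fun y => y + x ∈ Q).card := by
  unfold cnt
  symm
  refine card_bij (fun y _ => (y, y + x)) ?_ ?_ ?_
  · intro y hy
    rw [mem_filter] at hy
    rw [mem_filter, mem_product]
    refine ⟨⟨hy.1, hy.2⟩, ?_⟩
    change y - (y + x) + x = 0
    ring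
  · intro y _ y' _ h
    exact (Prod.mk.inj h).1
  · rintro ⟨p, q⟩ hp
    rw [mem_filter, mem_product] at hp
    have h1 : q = p + x := by
      have := hp.2
      change p - q + x = 0 at this
      linear_combination -this
    refine ⟨p, ?_, by rw [h1]⟩
    rw [mem_filter]
    exact ⟨hp.1.1, by rw [← h1]; exact hp.1.2⟩

lemma exp_le (M : ℕ) : Real.exp M ≤ (101 / 100 : ℝ) ^ (101 * M) := by
  have h1 : (1 : ℝ) / 101 ≤ Real.log (101 / 100) := by
    have := Real.one_sub_inv_le_log_of_pos (show (0 : ℝ) < 101 / 100 by norm_num)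
    refine le_trans ?_ this
    norm_num
  have h2 : Real.exp 1 ≤ (101 / 100 : ℝ) ^ 101 := by
    rw [← Real.exp_log (show (0 : ℝ) < (101 / 100) ^ 101 by positivity), Real.log_pow]
    apply Real.exp_le_exp.2
    push_cast
    linarith
  calc Real.exp M = (Real.exp 1) ^ M := by rw [← Real.exp_nat_mul, mul_one]
    _ ≤ ((101 / 100 : ℝ) ^ 101) ^ M := pow_le_pow_left₀ (Real.exp_pos 1).le h2 M
    _ = (101 / 100 : ℝ) ^ (101 * M) := (pow_mul _ _ _).symm

theorem t_PIG (h1 : S_SUM) (h2 : S_CARD) : S_PIG := by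
  classical
  intro N _ X M θ hX hM hN hθ hθM
  obtain ⟨G, hG⟩ : ∃ G, G = Sp X θ := ⟨_, rfl⟩
  rw [← hG]
  have hG0 : (0 : ZMod N) ∈ G := by rw [hG]; exact zero_mem_Sp X hθ
  have hMR : (1 : ℝ) ≤ M := by exact_mod_cast hM
  have hXc : (0 : ℝ) < X.card := by exact_mod_cast hX.card_pos
  -- sums of few elements
  have hsum : ∀ n : ℕ, (n : ℝ) ≤ 204 * (M : ℝ) ^ 2 → ∀ f : Fin n → ZMod N, (∀ i, f i ∈ G) →
      ∑ i, f i ∈ Sp X (1 / 2) := by
    intro n hn f hf
    rw [hG] at hf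
    refine Sp_mono X ?_ (h1 N X θ n f hf)
    have h3 : (n : ℝ) ^ 2 ≤ (204 * (M : ℝ) ^ 2) ^ 2 := pow_le_pow_left₀ (Nat.cast_nonneg _) hn 2
    have h4 := mul_le_mul_of_nonneg_right h3 hθ.le
    linarith
  have hMM : (M : ℝ) ≤ (M : ℝ) ^ 2 := by nlinarith
  have hcard : ∀ i : ℕ, i ≤ 101 * M + 1 → ((SS G i).card : ℝ) ≤ Real.exp M / 2 := by
    intro i hi
    have hiR : (i : ℝ) ≤ 101 * M + 1 := by exact_mod_cast hi
    have hsub : SS G i ⊆ Sp X (1 / 2) := by
      intro q hq
      rw [mem_SS] at hq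
      obtain ⟨f, hf, rfl⟩ := hq
      exact hsum i (by nlinarith) f hf
    have h3 : ((SS G i).card : ℝ) ≤ (Sp X (1 / 2)).card := by exact_mod_cast card_le_card hsub
    have h4 := h2 N X hX
    have h5 : ((Sp X (1 / 2)).card : ℝ) * X.card ≤ Real.exp M / 2 * X.card := by linarith
    exact h3.trans (le_of_mul_le_mul_right h5 hXc)
  -- pigeonhole principle
  obtain ⟨i, hi, hgr⟩ : ∃ i : ℕ, i ≤ 101 * M ∧
      100 * ((SS G (i + 1)).card : ℝ) ≤ 101 * (SS G i).card := by
    by_contra hcon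
    push Not at hcon
    have hlow : ∀ i : ℕ, i ≤ 101 * M + 1 → (101 / 100 : ℝ) ^ i ≤ (SS G i).card := by
      intro i
      induction i with
      | zero =>
        intro _
        rw [pow_zero]
        have : 0 < (SS G 0).card := card_pos.2 ⟨0, zero_mem_SS hG0 0⟩
        exact_mod_cast this
      | succ i ih =>
        intro hi
        have h3 := ih (by omega)
        have h4 := hcon i (by omega)
        rw [pow_succ]
        nlinarith
    have h3 := hlow (101 * M + 1) le_rfl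
    have h4 := hcard (101 * M + 1) le_rfl
    have h5 := exp_le M
    have h6 := Real.exp_pos (M : ℝ)
    rw [pow_succ] at h3
    nlinarith
  refine ⟨SS G i, ⟨0, zero_mem_SS hG0 i⟩, ?_, ?_⟩
  · intro g hg
    rw [cnt_eq]
    have h3 := card_filter_add_card_filter_not (s := SS G i) (fun y => y + g ∈ SS G i)
    have h4 : ((SS G i).filter fun y => ¬ (y + g ∈ SS G i)).card + (SS G i).card ≤
        (SS G (i + 1)).card := by
      have h5 : ((SS G i).filter fun y => ¬ (y + g ∈ SS G i)).card ≤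
          (SS G (i + 1) \ SS G i).card := by
        rw [← card_image_of_injective _ (add_left_injective g)]
        refine card_le_card fun z hz => ?_
        rw [mem_image] at hz
        obtain ⟨y, hy, rfl⟩ := hz
        rw [mem_filter] at hy
        rw [mem_sdiff]
        exact ⟨SS_add hy.1 hg, hy.2⟩
      have h6 := card_sdiff_add_card_eq_card (SS_sub hG0 i)
      omega
    have h3R : (((SS G i).filter fun y => y + g ∈ SS G i).card : ℝ) +
        (((SS G i).filter fun y => ¬ (y + g ∈ SS G i)).card : ℝ) = (SS G i).card := by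
      exact_mod_cast h3
    have h4R : (((SS G i).filter fun y => ¬ (y + g ∈ SS G i)).card : ℝ) + (SS G i).card ≤
        (SS G (i + 1)).card := by
      exact_mod_cast h4
    linarith
  · intro f hf
    obtain ⟨F, hF1, hF2⟩ := SS_SS f hf
    rw [← hF2]
    refine hsum _ ?_ F hF1
    have hiR : (i : ℝ) ≤ 101 * M := by exact_mod_cast hi
    push_cast
    calc ((M : ℝ) + 1) * i ≤ (2 * M) * (101 * M) := by
          apply mul_le_mul (by linarith) hiR (Nat.cast_nonneg _) (by positivity)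
      _ ≤ 204 * (M : ℝ) ^ 2 := by nlinarith

end Pool.Agent.N507.BG
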